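import Pool.Agent.Lib.MP_f2fe1e_co.Negative
import Pool.Agent.Lib.MP_f2fe1e_co.Positive

set_option autoImplicit false

namespace Pool.Agent.Results.MP_f2fe1e_co.ComplementNotClosed

open Pool.Agent.Lib.MP_f2fe1e_co

/-- For every `k ≥ 2`, none of the classes of `k`-interval-PCGs, OR-`k`-PCGs and AND-`k`-PCGs is
closed under complement. -/
theorem result : ∀ k : ℕ, 2 ≤ k →
    ¬ ClosedUnderComplement (fun G => IntervalPCG k G) ∧
    ¬ ClosedUnderComplement (fun G => OrPCG k G) ∧
    ¬ ClosedUnderComplement (fun G => AndPCG k G) := by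
  intro k hk
  obtain ⟨M₁, hM₁⟩ := not_orRep k 1 odd_one
  obtain ⟨M₂, hM₂⟩ := not_andRep k
  refine ⟨?_, ?_, ?_⟩
  · intro h
    have h1 := h _ (instFiniteLV _ _) (LG 0 (2 * k + 1) (max M₁ 2))
      (intervalPCG_LG k _ (le_max_right _ _))
    simp only [LG_compl] at h1
    exact hM₁ _ (le_max_left _ _) h1.orPCG.orRep
  · intro h
    have h1 := h _ (instFiniteLV _ _) (LG 0 (2 * k + 1) (max M₁ 2))
      (intervalPCG_LG k _ (le_max_right _ _)).orPCG
    simp only [LG_compl] at h1
    exact hM₁ _ (le_max_left _ _) h1.orRep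
  · intro h
    have h1 := h _ (instFiniteLV _ _) (LG 0 3 (max M₂ 2))
      (andPCG_LG k _ (by omega) (le_max_right _ _))
    simp only [LG_compl] at h1
    exact hM₂ _ (le_max_left _ _) h1.andRep

end Pool.Agent.Results.MP_f2fe1e_co.ComplementNotClosed
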